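import Pool.Agent.Lib.helper15.GH3

set_option autoImplicit false

open Set Metric GromovHausdorff unitInterval

namespace Pool.Agent.Results.MP_457a5a_gt.Counter

/-- `φ` is a Hausdorff realization in `X` of the curve `t ↦ W t` of compact metric spaces. -/
def Realizes (W : I → Type) [∀ t, MetricSpace (W t)] [∀ t, CompactSpace (W t)]
    [∀ t, Nonempty (W t)] (X : Type) [MetricSpace X] (φ : ∀ t, W t → X) : Prop :=
  (∀ t, Isometry (φ t)) ∧ ∀ s t, hausdorffDist (range (φ s)) (range (φ t)) = ghDist (W s) (W t)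

def P (l : ℝ) (t : I) : Fin 3 → ℝ × ℝ := ![(-5 - t, 0), (5 + t, 0), (l * t, 10)]

lemma P_inj (l : ℝ) (t : I) : Function.Injective (P l t) := fun i j h => by
  have := t.2.1
  fin_cases i <;> fin_cases j <;> simp [P] at h ⊢ <;> linarith

def W (_t : I) : Type := Fin 3

noncomputable instance (t : I) : MetricSpace (W t) :=
  MetricSpace.induced (P 0 t) (P_inj 0 t) inferInstance
instance (t : I) : Finite (W t) := inferInstanceAs (Finite (Fin 3))
instance (t : I) : Nonempty (W t) := inferInstanceAs (Nonempty (Fin 3))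

lemma d1 {l : ℝ} (h0 : 0 ≤ l) (h1 : l ≤ 1) (s t : I) :
    dist (P l s 0) (P l t 2) = 10 ∧ dist (P l s 1) (P l t 2) = 10 := by
  have := s.2.1; have := s.2.2; have := mul_nonneg h0 t.2.1
  have := mul_le_one₀ h1 t.2.1 t.2.2
  constructor <;> simp only [P, Prod.dist_eq, Real.dist_eq] <;> simp <;> rw [abs_le] <;>
    constructor <;> linarith

lemma iso {l : ℝ} (h0 : 0 ≤ l) (h1 : l ≤ 1) (t : I) : Isometry fun i : W t => P l t i :=
  Isometry.of_dist_eq fun (i j : Fin 3) => by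
    show dist (P l t i) (P l t j) = dist (P 0 t i) (P 0 t j)
    have a := d1 h0 h1 t t
    have b := d1 le_rfl zero_le_one t t
    fin_cases i <;> fin_cases j <;> simp only [Fin.zero_eta, Fin.mk_one, Fin.reduceFinMk, dist_self]
    exacts [rfl, a.1.trans b.1.symm, rfl, a.2.trans b.2.symm,
      by rw [dist_comm, a.1, dist_comm, b.1], by rw [dist_comm, a.2, dist_comm, b.2]]

lemma mv {l : ℝ} (h0 : 0 ≤ l) (h1 : l ≤ 1) (s t : I) (i : Fin 3) :
    dist (P l s i) (P l t i) ≤ |(s : ℝ) - t| ∧ (l = 1 → dist (P l s i) (P l t i) = |(s : ℝ) - t|) := by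
  have e : dist (P l s 2) (P l t 2) = l * |(s : ℝ) - t| := by
    simp [P, Prod.dist_eq, Real.dist_eq, ← mul_sub, abs_mul, abs_of_nonneg h0, mul_nonneg h0]
  have e0 : dist (P l s 0) (P l t 0) = |(s : ℝ) - t| := by
    simp only [P, Prod.dist_eq, Real.dist_eq]
    simp [show -5 - (s : ℝ) - (-5 - t) = -(s - t) by ring, -neg_sub]
  have e1 : dist (P l s 1) (P l t 1) = |(s : ℝ) - t| := by simp [P, Prod.dist_eq, Real.dist_eq]
  fin_cases i
  exacts [⟨e0.le, fun _ => e0⟩, ⟨e1.le, fun _ => e1⟩,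
    ⟨e.trans_le (mul_le_of_le_one_left (abs_nonneg _) h1), fun h => e.trans (by simp [h])⟩]

lemma low (s t : I) : (s : ℝ) - t ≤ ghDist (W s) (W t) := by
  obtain ⟨Φ, Ψ, h1, h2, e⟩ := ghDist_eq_hausdorffDist (W s) (W t)
  refine le_of_forall_gt fun r hr => ?_
  obtain ⟨p, q⟩ := Pool.Agent.Lib.helper15.GH3.near h1 h2 (e ▸ hr)
  obtain ⟨x, hx⟩ := p (0 : Fin 3)
  obtain ⟨y, hy⟩ := p (1 : Fin 3)
  have k := (abs_lt.1 (q _ hx _ hy)).2
  have e1 : ∀ t : I, dist (P 0 t 0) (P 0 t 1) = 10 + 2 * t := fun t => by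
    have := t.2.1
    simp only [P, Prod.dist_eq, Real.dist_eq]; simp
    rw [abs_of_nonpos (by linarith)]; ring
  have e2 : ∀ x y : Fin 3, dist (P 0 t x) (P 0 t y) ≤ 10 + 2 * t := fun x y => by
    have := t.2.1
    have b := d1 le_rfl zero_le_one t t
    have c := e1 t
    fin_cases x <;> fin_cases y <;> simp only [Fin.zero_eta, Fin.mk_one, Fin.reduceFinMk, dist_self] <;>
      first | linarith [b.1, b.2] | (rw [dist_comm]; linarith [b.1, b.2])
  change dist (P 0 s 0) (P 0 s 1) - dist (P 0 t x) (P 0 t y) < _ at k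
  linarith [e1 s, e2 x y]

lemma bd {l R : ℝ} (h0 : 0 ≤ l) (h1 : l ≤ 1) (hR : 10 ≤ R) (t : I) (i : Fin 3) :
    P l t i ∈ closedBall (0 : ℝ × ℝ) R := by
  have := t.2.1; have := t.2.2; have := mul_nonneg h0 t.2.1
  have := mul_le_one₀ h1 t.2.1 t.2.2
  rw [mem_closedBall_zero_iff, Prod.norm_def, max_le_iff, Real.norm_eq_abs, Real.norm_eq_abs,
    abs_le, abs_le]
  fin_cases i <;> simp only [P] <;> refine ⟨⟨?_, ?_⟩, ?_, ?_⟩ <;> simp <;> linarith

lemma real {l R : ℝ} (h0 : 0 ≤ l) (h1 : l ≤ 1) (hR : 10 ≤ R) :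
    Realizes W (closedBall (0 : ℝ × ℝ) R) (fun t i => ⟨P l t i, bd h0 h1 hR t i⟩) ∧
      ∀ s t : I, ghDist (W s) (W t) = |(s : ℝ) - t| := by
  have i1 : ∀ t, Isometry fun i : W t => (⟨P l t i, bd h0 h1 hR t i⟩ : closedBall (0 : ℝ × ℝ) R) :=
    fun t => iso h0 h1 t
  have k : ∀ s t : I, hausdorffDist
      (range fun i : W s => (⟨P l s i, bd h0 h1 hR s i⟩ : closedBall (0 : ℝ × ℝ) R))
      (range fun i : W t => (⟨P l t i, bd h0 h1 hR t i⟩ : closedBall (0 : ℝ × ℝ) R)) ≤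
      |(s : ℝ) - t| := fun s t => hausdorffDist_le_of_mem_dist (abs_nonneg _)
    (by rintro _ ⟨i, rfl⟩; exact ⟨_, ⟨i, rfl⟩, (mv h0 h1 s t i).1⟩)
    (by rintro _ ⟨i, rfl⟩; exact ⟨_, ⟨i, rfl⟩, (mv h0 h1 t s i).1.trans (abs_sub_comm _ _).le⟩)
  have k2 : ∀ s t : I, |(s : ℝ) - t| ≤ ghDist (W s) (W t) := fun s t => abs_sub_le_iff.2
    ⟨low s t, (low t s).trans (dist_comm _ _).le⟩
  have k3 := fun s t => ghDist_le_hausdorffDist (i1 s) (i1 t)
  exact ⟨⟨i1, fun s t => le_antisymm ((k s t).trans (k2 s t)) (k3 s t)⟩,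
    fun s t => le_antisymm ((k3 s t).trans (k s t)) (k2 s t)⟩

theorem result :
    ∃ (W : I → Type) (_ : ∀ t, MetricSpace (W t)) (_ : ∀ t, CompactSpace (W t))
      (_ : ∀ t, Nonempty (W t)),
      (∀ s t : I, ghDist (W s) (W t) = |(s : ℝ) - t| * ghDist (W 0) (W 1)) ∧
      ∃ (X Y : Type) (_ : MetricSpace X) (_ : MetricSpace Y) (φ : ∀ t, W t → X) (ψ : ∀ t, W t → Y),
        CompactSpace X ∧ CompactSpace Y ∧ IsEmpty (X ≃ᵢ Y) ∧ Realizes W X φ ∧ Realizes W Y ψ ∧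
        IsEmpty ((⋃ t, range (φ t) : Set X) ≃ᵢ (⋃ t, range (ψ t) : Set Y)) := by
  obtain ⟨r1, g⟩ := real (l := 0) (R := 10) le_rfl zero_le_one le_rfl
  obtain ⟨r2, -⟩ := real (l := 1) (R := 30) zero_le_one le_rfl (by norm_num)
  refine ⟨W, inferInstance, inferInstance, inferInstance, fun s t => by simp [g], _, _, _, _, _, _,
    isCompact_iff_compactSpace.1 (isCompact_closedBall _ _),
    isCompact_iff_compactSpace.1 (isCompact_closedBall _ _), ⟨fun e => ?_⟩, r1, r2, ⟨fun e => ?_⟩⟩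
  · have h := e.symm.dist_eq ⟨0, by simp⟩ ⟨(30, 0), by simp⟩
    have a := (e.symm ⟨0, by simp⟩).2
    have b := (e.symm ⟨(30, 0), by simp⟩).2
    have c := dist_triangle_right (e.symm ⟨0, by simp⟩).1 (e.symm ⟨(30, 0), by simp⟩).1 0
    rw [mem_closedBall] at a b
    rw [Subtype.dist_eq, Subtype.dist_eq] at h
    simp at h
    linarith
  · obtain ⟨⟨_, hz⟩, ez⟩ : ∃ z, z = e ⟨_, mem_iUnion.2 ⟨0, (2 : Fin 3), rfl⟩⟩ := ⟨_, rfl⟩
    obtain ⟨t, i, rfl⟩ := mem_iUnion.1 hz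
    obtain ⟨s, hs⟩ := exists_ne t
    obtain ⟨⟨_, hw⟩, ew⟩ := e.surjective ⟨_, mem_iUnion.2 ⟨s, i, rfl⟩⟩
    obtain ⟨u, j : Fin 3, rfl⟩ := mem_iUnion.1 hw
    have h := e.dist_eq ⟨_, hw⟩ ⟨_, mem_iUnion.2 ⟨0, (2 : Fin 3), rfl⟩⟩
    rw [← ez, ew] at h
    change dist (P 1 s i) (P 1 t i) = dist (P 0 u j) (P 0 0 2) at h
    rw [(mv zero_le_one le_rfl s t i).2 rfl] at h
    have b := d1 le_rfl zero_le_one u 0
    have c : |(s : ℝ) - t| ≤ 1 := abs_sub_le_iff.2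
      ⟨by linarith [s.2.2, t.2.1], by linarith [s.2.1, t.2.2]⟩
    fin_cases j
    · exact absurd (h.trans b.1) (by linarith)
    · exact absurd (h.trans b.2) (by linarith)
    · exact hs (Subtype.ext (sub_eq_zero.1 (abs_eq_zero.1 (h.trans (by simp [P])))))

end Pool.Agent.Results.MP_457a5a_gt.Counter
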